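import Mathlib
import Pool.Agent.Lib_helper26.SCH.All

/-!
# The minimum number of Schur triples, exactly, for every finite abelian group

For every finite abelian group `G` of order `n` and exponent `e` and every `m ≤ n` the number
`(3 m - n)^2 - 4 P(G, m)` is the largest element of an explicit finite set of integers
which depends only on `n`, `e` and `b = n - m`.
-/

set_option autoImplicit false

namespace Pool.Agent.Results.MP_682720_co.ExactAllGroups

universe u

/-- `schurPairs A` is `P(G, A)`: the number of pairs `(a₁, a₂) ∈ A × A` with `a₁ + a₂ ∈ A`. -/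
def schurPairs {G : Type u} [AddCommGroup G] [DecidableEq G] (A : Finset G) : ℕ :=
  ((A ×ˢ A).filter (fun p => p.1 + p.2 ∈ A)).card

/-- `minSchurPairs G m` is `P(G, m)`: the minimum of `P(G, A)` over the `m`-subsets `A`. -/
noncomputable def minSchurPairs (G : Type u) [AddCommGroup G] [DecidableEq G] (m : ℕ) : ℕ :=
  sInf {t | ∃ A : Finset G, A.card = m ∧ schurPairs A = t}

/-- `Values n e b` consists of the following integers:
* `(3 b - 2 k)^2` for a divisor `k` of `n` and a common divisor `d` of `k` and `e` with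
  `b ≤ k ≤ b + (k / d) ⌊(d + 1) / 3⌋`;
* `(h - s) (h - 5 s)` for a divisor `h` of `n` and integers `j ≥ 0`, `0 ≤ s ≤ h` with
  `b = (2 j + 1) h - s` and `3 j + 1 ≤ gcd(e, n / h)`;
* `(h - s) (h - 5 s)` for a divisor `h` of `n` and integers `j ≥ 0`, `0 ≤ s ≤ h` with
  `b = (2 j + 1) h + s` and `3 j + 2 ≤ gcd(e, n / h)`. -/
def Values (n e b : ℕ) : Set ℤ :=
  {v | (∃ k d : ℕ, k ∣ n ∧ d ∣ k ∧ d ∣ e ∧ b ≤ k ∧ k ≤ b + (k / d) * ((d + 1) / 3) ∧
      v = (3 * (b : ℤ) - 2 * k) ^ 2) ∨
    (∃ h j s : ℕ, h ∣ n ∧ s ≤ h ∧ b + s = (2 * j + 1) * h ∧ 3 * j + 1 ≤ Nat.gcd e (n / h) ∧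
      v = ((h : ℤ) - s) * (h - 5 * s)) ∨
    (∃ h j s : ℕ, h ∣ n ∧ s ≤ h ∧ b = (2 * j + 1) * h + s ∧ 3 * j + 2 ≤ Nat.gcd e (n / h) ∧
      v = ((h : ℤ) - s) * (h - 5 * s))}

/-- **Exact value of `P(G, m)` for every finite abelian group `G` and every `m ≤ |G|`.** -/
theorem result (G : Type u) [AddCommGroup G] [Fintype G] [DecidableEq G]
    (m : ℕ) (hm : m ≤ Fintype.card G) :
    IsGreatest (Values (Fintype.card G) (AddMonoid.exponent G) (Fintype.card G - m))
      ((3 * (m : ℤ) - Fintype.card G) ^ 2 - 4 * minSchurPairs G m) :=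
  Pool.Agent.SCH.final_cand (Pool.Agent.SCH.main_theorem G) hm

end Pool.Agent.Results.MP_682720_co.ExactAllGroups
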